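import Pool.Agent.helper14.XG.Spec

/-!
# Project xg (MP_51d945_co), row LMA: lower bound for the gadget tuples
-/

set_option autoImplicit false

namespace Pool.Agent.XG

open Finset
open Pool.Agent.XT

private theorem LMA_cs {n : ℕ} (f : Fin n × Fin n → ℕ) (hn : 0 < n) (A : ℝ) (hA : 0 ≤ A)
    (h : A * n ≤ ((∑ e, f e : ℕ) : ℝ)) : A ^ 2 ≤ ((∑ e, f e ^ 2 : ℕ) : ℝ) := by
  have h1 : (∑ e : Fin n × Fin n, (f e : ℝ)) ^ 2 ≤
      (Finset.univ : Finset (Fin n × Fin n)).card * ∑ e : Fin n × Fin n, (f e : ℝ) ^ 2 :=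
    sq_sum_le_card_mul_sum_sq
  have h2 : ((Finset.univ : Finset (Fin n × Fin n)).card : ℝ) = (n : ℝ) ^ 2 := by
    rw [Finset.card_univ, Fintype.card_prod, Fintype.card_fin]
    push_cast
    ring
  have hn' : (0 : ℝ) < n := by exact_mod_cast hn
  have h3 : (A * n) ^ 2 ≤ (∑ e : Fin n × Fin n, (f e : ℝ)) ^ 2 := by
    have h4 : A * n ≤ ∑ e : Fin n × Fin n, (f e : ℝ) := by
      have := h
      push_cast at this
      exact this
    exact pow_le_pow_left₀ (by positivity) h4 2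
  rw [h2] at h1
  have h5 : (n : ℝ) ^ 2 * A ^ 2 ≤ (n : ℝ) ^ 2 * ∑ e : Fin n × Fin n, (f e : ℝ) ^ 2 := by
    calc (n : ℝ) ^ 2 * A ^ 2 = (A * n) ^ 2 := by ring
      _ ≤ _ := h3.trans h1
  have h6 := le_of_mul_le_mul_left h5 (by positivity)
  push_cast
  exact h6

private theorem LMA_fin (c1 d N S I1 I2 h2 T : ℝ) (hc1 : 0 < c1) (hd : 0 < d) (hN : 0 < N)
    (hS : c1 * d ≤ S) (hI1 : I1 ≤ c1 * d / 100) (hI2 : I2 ≤ c1 * d / 100)
    (hh : N * h2 = c1 * d / 64)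
    (hT : (S - 9 * I1 - 8 * I2 - 2 * N * h2) * (h2 / 4) ≤ T) :
    c1 ^ 2 / 512 * d ^ 2 / N ≤ T := by
  have h1 : h2 = c1 * d / (64 * N) := by
    field_simp
    linarith [hh]
  have hh2 : 0 < h2 := by
    rw [h1]
    positivity
  have h3 : c1 * d / 2 ≤ S - 9 * I1 - 8 * I2 - 2 * N * h2 := by
    have : 2 * N * h2 = c1 * d / 32 := by linarith
    have hp : 0 < c1 * d := by positivity
    linarith
  have h4 : c1 * d / 2 * (h2 / 4) ≤ T :=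
    le_trans (mul_le_mul_of_nonneg_right h3 (by positivity)) hT
  have h5 : c1 ^ 2 / 512 * d ^ 2 / N = c1 * d / 2 * (h2 / 4) := by
    rw [h1]
    field_simp
    ring
  rw [h5]
  exact h4

theorem LMA (hP4C : P4C_stmt) (hINC : INC_stmt) (hLOW : LOW_stmt) (hARG : ARG_stmt) :
    LMA_stmt := by
  intro κ hκ
  obtain ⟨Cp, t0, ht0, hP⟩ := hP4C κ hκ
  obtain ⟨Ci, hCi, hI⟩ := hINC
  set c1 : ℝ := κ ^ 8 / 64 with hc1d
  have hc1 : 0 < c1 := by positivity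
  set C1 : ℝ := max t0 (200 * Ci * t0 / c1) with hC1d
  have hC1t : t0 ≤ C1 := le_max_left _ _
  have hC1a : 200 * Ci * t0 / c1 ≤ C1 := le_max_right _ _
  have hC1p : 0 < C1 := by linarith
  set C2 : ℝ := max C1 (200 * Ci * C1 / c1) with hC2d
  have hC2t : C1 ≤ C2 := le_max_left _ _
  have hC2a : 200 * Ci * C1 / c1 ≤ C2 := le_max_right _ _
  have hC2p : 0 < C2 := by linarith
  set K : ℝ := max Cp (max 1 (200 * Ci * C1 / c1)) with hKd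
  have hK1 : 1 ≤ K := le_trans (le_max_left _ _) (le_max_right _ _)
  have hKp : Cp ≤ K := le_max_left _ _
  have hKa : 200 * Ci * C1 / c1 ≤ K := le_trans (le_max_right _ _) (le_max_right _ _)
  obtain ⟨C, hC, hA⟩ := hARG K hK1
  refine ⟨C, C1, C2, c1 ^ 2 / 512, by linarith, hC2t, by positivity, ?_⟩
  intro n D B Nr F hH hS hCn hDn
  obtain ⟨a1, a2, a3, -, -, -⟩ := hA n D hH.n0 hCn
  have hn : (0 : ℝ) < n := by exact_mod_cast hH.n0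
  have hD : (0 : ℝ) < D := by exact_mod_cast hH.d0
  have hDg : Dg B D := ⟨hH.pu, hH.lu⟩
  have hr : (D : ℝ) ^ 3 ≤ n := by exact_mod_cast hDn
  set r : ℝ := (n : ℝ) / (D : ℝ) ^ 3 with hrd
  have hr1 : 1 ≤ r := by
    rw [hrd, le_div_iff₀ (by positivity), one_mul]
    exact hr
  have ht1 : C1 * n / (D : ℝ) ^ 3 = C1 * r := by rw [hrd]; ring
  have ht2 : C2 * (n : ℝ) ^ 2 / (D : ℝ) ^ 6 = C2 * r ^ 2 := by
    rw [hrd]
    field_simp
  rw [ht1, ht2]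
  have h01 : t0 ≤ C1 * r := by nlinarith
  have h12 : C1 * r ≤ C2 * r ^ 2 := by
    have : C1 * r ≤ C2 * r := mul_le_mul_of_nonneg_right hC2t (by linarith)
    have h' : r ≤ r ^ 2 := by nlinarith
    have h'' : C2 * r ≤ C2 * r ^ 2 := mul_le_mul_of_nonneg_left h' hC2p.le
    linarith
  -- the sum of the squares
  have hsum := hP n D B Nr F hH hS (le_trans hKp a1)
  have hS2 : c1 * (D : ℝ) ^ 8 ≤
      ((∑ e : Fin n × Fin n, (PP B Nr F t0 e.1 e.2).card ^ 2 : ℕ) : ℝ) := by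
    have h1 := LMA_cs (fun e : Fin n × Fin n => (PP B Nr F t0 e.1 e.2).card) hH.n0
      (κ ^ 4 / 8 * (D : ℝ) ^ 4) (by positivity) (by
        calc κ ^ 4 / 8 * (D : ℝ) ^ 4 * n = κ ^ 4 / 8 * n * (D : ℝ) ^ 4 := by ring
          _ ≤ _ := hsum)
    calc c1 * (D : ℝ) ^ 8 = (κ ^ 4 / 8 * (D : ℝ) ^ 4) ^ 2 := by rw [hc1d]; ring
      _ ≤ _ := h1
  -- the incompatible pairs
  have hD8 : (0 : ℝ) < (D : ℝ) ^ 8 := by positivity
  have hI1 : (IC B Nr F t0 (C1 * r) : ℝ) ≤ c1 * (D : ℝ) ^ 8 / 100 := by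
    have h1 := hI n D B Nr F hS hDg hH.d0 t0 (C1 * r) ht0 (by linarith)
    have e1 : t0 * n * (D : ℝ) ^ 5 / (C1 * r) = t0 / C1 * (D : ℝ) ^ 8 := by
      rw [hrd]
      field_simp
    have e2 : Ci * (t0 / C1 * (D : ℝ) ^ 8) ≤ c1 * (D : ℝ) ^ 8 / 200 := by
      have h2 : Ci * t0 / C1 ≤ c1 / 200 := by
        rw [div_le_iff₀ hC1p]
        rw [div_le_iff₀ hc1] at hC1a
        linarith
      calc Ci * (t0 / C1 * (D : ℝ) ^ 8) = Ci * t0 / C1 * (D : ℝ) ^ 8 := by ring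
        _ ≤ c1 / 200 * (D : ℝ) ^ 8 := mul_le_mul_of_nonneg_right h2 hD8.le
        _ = _ := by ring
    have e3 : Ci * (t0 * n * (D : ℝ) ^ 4) ≤ c1 * (D : ℝ) ^ 8 / 200 := by
      have h2 : Ci * t0 ≤ c1 / 200 * K := by
        have h3 : 200 * Ci * C1 ≤ K * c1 := by
          rw [div_le_iff₀ hc1] at hKa
          exact hKa
        have h4 : Ci * t0 ≤ Ci * C1 := mul_le_mul_of_nonneg_left hC1t hCi.le
        linarith
      have h3 : 0 ≤ (n : ℝ) * (D : ℝ) ^ 4 := by positivity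
      calc Ci * (t0 * n * (D : ℝ) ^ 4) = Ci * t0 * (n * (D : ℝ) ^ 4) := by ring
        _ ≤ c1 / 200 * K * (n * (D : ℝ) ^ 4) := mul_le_mul_of_nonneg_right h2 h3
        _ = c1 / 200 * (D : ℝ) ^ 4 * (K * n) := by ring
        _ ≤ c1 / 200 * (D : ℝ) ^ 4 * (D : ℝ) ^ 4 := mul_le_mul_of_nonneg_left a2 (by positivity)
        _ = _ := by ring
    rw [e1] at h1
    linarith
  have hI2 : (IC B Nr F (C1 * r) (C2 * r ^ 2) : ℝ) ≤ c1 * (D : ℝ) ^ 8 / 100 := by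
    have h1 := hI n D B Nr F hS hDg hH.d0 (C1 * r) (C2 * r ^ 2) (by linarith) (by linarith)
    have e1 : C1 * r * n * (D : ℝ) ^ 5 / (C2 * r ^ 2) = C1 / C2 * (D : ℝ) ^ 8 := by
      rw [hrd]
      field_simp
    have e0 : C1 * r * n * (D : ℝ) ^ 4 = C1 * (n : ℝ) ^ 2 * D := by
      rw [hrd]
      field_simp
    have e2 : Ci * (C1 / C2 * (D : ℝ) ^ 8) ≤ c1 * (D : ℝ) ^ 8 / 200 := by
      have h2 : Ci * C1 / C2 ≤ c1 / 200 := by
        rw [div_le_iff₀ hC2p]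
        rw [div_le_iff₀ hc1] at hC2a
        linarith
      calc Ci * (C1 / C2 * (D : ℝ) ^ 8) = Ci * C1 / C2 * (D : ℝ) ^ 8 := by ring
        _ ≤ c1 / 200 * (D : ℝ) ^ 8 := mul_le_mul_of_nonneg_right h2 hD8.le
        _ = _ := by ring
    have e3 : Ci * (C1 * (n : ℝ) ^ 2 * D) ≤ c1 * (D : ℝ) ^ 8 / 200 := by
      have h2 : Ci * C1 ≤ c1 / 200 * K := by
        have h3 : 200 * Ci * C1 ≤ K * c1 := by
          rw [div_le_iff₀ hc1] at hKa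
          exact hKa
        linarith
      have h3 : 0 ≤ (n : ℝ) ^ 2 * (D : ℝ) := by positivity
      calc Ci * (C1 * (n : ℝ) ^ 2 * D) = Ci * C1 * ((n : ℝ) ^ 2 * D) := by ring
        _ ≤ c1 / 200 * K * ((n : ℝ) ^ 2 * D) := mul_le_mul_of_nonneg_right h2 h3
        _ = c1 / 200 * D * (K * (n : ℝ) ^ 2) := by ring
        _ ≤ c1 / 200 * D * (D : ℝ) ^ 7 := mul_le_mul_of_nonneg_left a3 (by positivity)
        _ = _ := by ring
    rw [e1, e0] at h1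
    linarith
  -- the lower bound
  set h : ℝ := Real.sqrt c1 / 8 * (D : ℝ) ^ 4 / n with hhd
  have hh0 : 0 ≤ h := by positivity
  have hhs : (n : ℝ) ^ 2 * h ^ 2 = c1 * (D : ℝ) ^ 8 / 64 := by
    rw [hhd]
    have hsq : Real.sqrt c1 ^ 2 = c1 := Real.sq_sqrt hc1.le
    calc (n : ℝ) ^ 2 * (Real.sqrt c1 / 8 * (D : ℝ) ^ 4 / n) ^ 2
        = Real.sqrt c1 ^ 2 * (D : ℝ) ^ 8 / 64 := by
          field_simp
          ring
      _ = _ := by rw [hsq]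
  have hL := hLOW n B Nr F hS t0 (C1 * r) (C2 * r ^ 2) h ht0 h01 h12 hh0
  have hfin := LMA_fin c1 ((D : ℝ) ^ 8) ((n : ℝ) ^ 2)
    ((∑ e : Fin n × Fin n, (PP B Nr F t0 e.1 e.2).card ^ 2 : ℕ) : ℝ)
    (IC B Nr F t0 (C1 * r) : ℝ) (IC B Nr F (C1 * r) (C2 * r ^ 2) : ℝ) (h ^ 2)
    ((TG B Nr F (C1 * r) (C2 * r ^ 2)).card : ℝ) hc1 hD8 (by positivity) hS2 hI1 hI2 hhs (by
      calc _ = _ := by ring
        _ ≤ _ := hL)
  calc c1 ^ 2 / 512 * (D : ℝ) ^ 16 / (n : ℝ) ^ 2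
      = c1 ^ 2 / 512 * ((D : ℝ) ^ 8) ^ 2 / (n : ℝ) ^ 2 := by ring
    _ ≤ _ := hfin

end Pool.Agent.XG
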